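import Pool.Agent.K.MP_626a52_co.C11

namespace Pool.Agent.Results.MP_626a52_co.AllSumsOfSquares
open Pool.Agent.P.MP_626a52_co

/-- A regular rep-cube of order `k` exists for every sum `k` of two positive squares. -/
theorem result : ∀ k a b : ℕ, 1 ≤ a → 1 ≤ b → k = a ^ 2 + b ^ 2 →
    ∃ P : Finset (ℤ × ℤ), IsRegularRepCube k P :=
  fun _ a b ha hb hk => hk ▸ main a b ha hb

end Pool.Agent.Results.MP_626a52_co.AllSumsOfSquares
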